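import Mathlib
import Pool.Agent.H23.Stab.Lim

/-!
Functorial liftings to `GL(N)` of symplectic (or special orthogonal) representations with
`o(N)` wrong Satake parameters imply exact functorial liftings for all representations.
-/

namespace Pool.Agent.H23.Kept.ApproximateLifting

open Pool.H73.Func Pool.H23.Stab Filter Topology

/-- Every `ρ` has, for every `π`, a lifting outside a set of places in the family `E`. -/
def LiftsOff {A : GLSide} (B : LSide A) (E : Set (Set A.Place)) : Prop :=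
  ∀ (π : B.Rep) (ι : Type) [Fintype ι] [DecidableEq ι], ∀ ρ ∈ B.alg π ι,
    ∃ X ∈ E, HasLiftOff B X π ρ

/-- For every `n ≥ 1` there is one even `N ≥ 2n` such that all symplectic `ρ` of dimension `N`
have, for all `π`, an approximate lifting with at most `N/(100n²)` wrong Satake parameters at
each unramified place outside a set in the family `E n`. -/
def ApproxSymplectic {A : GLSide} (B : LSide A) (E : ℕ → Set (Set A.Place)) : Prop :=
  ∀ n : ℕ, 1 ≤ n → ∃ N w : ℕ, 2 * n ≤ N ∧ Even N ∧ 100 * n ^ 2 * w ≤ N ∧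
    ∀ (π : B.Rep) (ι : Type) [Fintype ι] [DecidableEq ι], ∀ ρ ∈ B.alg π ι,
      Fintype.card ι = N → IsSymplectic ρ → ∃ X ∈ E n, HasApproxOff B w X π ρ

/-- The same for special orthogonal `ρ`. -/
def ApproxOrthogonal {A : GLSide} (B : LSide A) (E : ℕ → Set (Set A.Place)) : Prop :=
  ∀ n : ℕ, 1 ≤ n → ∃ N w : ℕ, 2 * n ≤ N ∧ 100 * n ^ 2 * w ≤ N ∧
    ∀ (π : B.Rep) (ι : Type) [Fintype ι] [DecidableEq ι], ∀ ρ ∈ B.alg π ι,
      Fintype.card ι = N → IsSpecialOrthogonal ρ → ∃ X ∈ E n, HasApproxOff B w X π ρ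

/-- The sets contained in a member of each of the families `E n`. -/
def limSets {P : Type} (E : ℕ → Set (Set P)) : Set (Set P) := {X | ∀ n, ∃ Y ∈ E n, X ⊆ Y}

/-- **Theorem.**  Let `E 1 ⊇ E 2 ⊇ ...` be nonempty families of sets of places, the members of
`E n` having upper density at most `1/(100n²)`.  In a theory of cuspidal representations
satisfying the Ramanujan conjecture, exact liftings outside sets in the limit of the families,
for all representations of `L`-groups, are equivalent to approximate liftings with `o(N)` wrong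
parameters for the symplectic (or the special orthogonal) representations of one dimension `N`
for each `n`. -/
theorem result (A : RamSide) (B : LSide A.toGLSide) (E : ℕ → Set (Set A.Place))
    (hne : ∀ n, (E n).Nonempty) (hanti : Antitone E)
    (hE : ∀ n, 1 ≤ n → ∀ X ∈ E n, UpperDensityLE A.toGLSide X (1 / (100 * n ^ 2))) :
    List.TFAE [LiftsOff B (limSets E), ApproxSymplectic B E, ApproxOrthogonal B E] := by
  have fin : ∀ (π : B.Rep) (ι : Type) [Fintype ι] [DecidableEq ι] (ρ : B.L π →* Matrix ι ι ℂ),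
      (1 ≤ Fintype.card ι → ∀ n', Fintype.card ι ≤ n' → ∃ X ∈ E n', HasLiftOff B X π ρ) →
      ∃ X ∈ limSets E, HasLiftOff B X π ρ := by
    intro π ι _ _ ρ h
    rcases Nat.eq_zero_or_pos (Fintype.card ι) with h0 | h0
    · refine ⟨∅, fun n => ?_, lift_empty B _ π ρ h0⟩
      obtain ⟨Y, hY⟩ := hne n
      exact ⟨Y, hY, Set.empty_subset _⟩
    · obtain ⟨X, h1, h2⟩ := lift_of_lim A B E hE π ι ρ h0 (h h0)
      refine ⟨X, fun n => ?_, h2⟩
      obtain ⟨Y, hY, hXY⟩ := h1 (max n (Fintype.card ι)) (le_max_right _ _)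
      exact ⟨Y, hanti (le_max_left _ _) hY, hXY⟩
  tfae_have 1 → 2 := by
    intro h n hn
    refine ⟨2 * n, 0, le_rfl, even_two_mul n, by omega, ?_⟩
    intro π ι _ _ ρ hρ _ _
    obtain ⟨X, h1, h2⟩ := h π ι ρ hρ
    obtain ⟨Y, hY, hXY⟩ := h1 n
    exact ⟨Y, hY, approx_of_lift B (lift_mono B hXY h2)⟩
  tfae_have 1 → 3 := by
    intro h n hn
    refine ⟨2 * n, 0, le_rfl, by omega, ?_⟩
    intro π ι _ _ ρ hρ _ _
    obtain ⟨X, h1, h2⟩ := h π ι ρ hρ
    obtain ⟨Y, hY, hXY⟩ := h1 n
    exact ⟨Y, hY, approx_of_lift B (lift_mono B hXY h2)⟩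
  tfae_have 2 → 1 := by
    intro h π ι _ _ ρ hρ
    apply fin
    intro h0 n' hn'
    obtain ⟨N, w, h1, h2, h3, h4⟩ := h n' (lt_of_lt_of_le h0 hn')
    exact lift_of_symplectic A B n' N w h1 h2 h3 (fun X => X ∈ E n')
      (hE n' (lt_of_lt_of_le h0 hn')) h4 π ι ρ hρ h0 hn'
  tfae_have 3 → 1 := by
    intro h π ι _ _ ρ hρ
    apply fin
    intro h0 n' hn'
    obtain ⟨N, w, h1, h3, h4⟩ := h n' (lt_of_lt_of_le h0 hn')
    exact lift_of_orthogonal A B n' N w h1 h3 (fun X => X ∈ E n')
      (hE n' (lt_of_lt_of_le h0 hn')) h4 π ι ρ hρ h0 hn'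
  tfae_finish

end Pool.Agent.H23.Kept.ApproximateLifting
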