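import Mathlib
import Pool.Agent.H23.Schur.Top

/-!
Exterior power functoriality for all `GL(N)` is equivalent to symmetric power functoriality for all
`GL(N)`, and implies functoriality for other polynomial functors.
-/

namespace Pool.H23.Kept.SchurFunctors

open Pool.H73.Func Pool.H23.Schur Pool.Agent.H1.AM

/-- **Theorem.**  Let `A` be a theory of automorphic representations of the groups `GL(n)` over a
given global field.

(1) Let `H` be a finite group which occurs in general position (if the tensor products exist), `W`
a representation and `θ` an irreducible character of `H`, and `Ω = omega k W θ` the character of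
the symmetric group `S_k` on `Hom_H(θ, W^{⊗ k})`.  If the exterior powers of degree at most `k` of
all isobaric representations are automorphic, then so are the images of all isobaric representations
under the polynomial functor with the character `sgn * Ω`; if the symmetric powers of degree at most
`k` are automorphic, then so are the images under the functor with the character `Ω`.

(2) In both cases, if `G` is a subgroup of `S_k` such that the wreath product of a cyclic group of
order `m > 1` by `G` occurs in general position, the images under the polynomial functors are
automorphic whose characters are induced from the irreducible characters of `G`.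

(3) The exterior powers of degree at most `k` are automorphic if and only if the symmetric powers
are, if for `2 ≤ j ≤ k` the wreath product of a cyclic group by `S_j` occurs in general position,
or, for `j = 4`, the wreath product by the group of order two of a finite group `Γ` with a
representation in `SL(2)` with moments `1` and `2` (for instance `Γ = SL(2, 3)`). -/
theorem result (A : GLSide) (hA : Indep A) :
    (∀ k, 2 ≤ k → ∀ (H : Type) [Group H] [Fintype H], (HasTen A → GenericArtin A H) →
      ∀ (n : ℕ) (W : H →* Matrix (Fin n) (Fin n) ℂ), ∀ θ ∈ irr H,
        (ExtPowers A k → HasSchur A (fun s => sgn k s * omega k W θ s)) ∧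
        (SymPowers A k → HasSchur A (omega k W θ))) ∧
    (∀ k, 2 ≤ k → (ExtPowers A k ∨ SymPowers A k) → ∀ (m : ℕ) [NeZero m], 1 < m →
      ∀ (G : Subgroup (Equiv.Perm (Fin k))) [Fintype (Wr m G)],
        (HasTen A → GenericArtin A (Wr m G)) → ∀ χ : G → ℂ, IsIrr χ → HasSchur A (ind G χ)) ∧
    (∀ k, (∀ j, 2 ≤ j → j ≤ k → HasTen A → Detects A j) → (ExtPowers A k ↔ SymPowers A k)) :=
  ⟨fun _ hk _ _ _ hG _ W _ hθ =>
      ⟨fun h => main_ext hA hk h hG W (mem_irr.1 hθ), fun h => main_sym hA hk h hG W (mem_irr.1 hθ)⟩,
    fun _ hk h _ _ hm G _ hG χ hχ => main_ind hA hk h hm G hG χ hχ,
    fun k hG => equivalence hA k hG⟩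

end Pool.H23.Kept.SchurFunctors
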