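import Mathlib
import Pool.Agent.H23.Base.Main

/-!
Functoriality over a number field `K` implies functoriality over its solvable Galois extensions.
-/

namespace Pool.Agent.H23.Kept.SolvableExtensions

open Pool.H73.Func Pool.H23.Stab Pool.H23.Base

/-- **Theorem.**  Let `K'` be a solvable Galois extension of the number field `K`.  If every
automorphic representation over `K` has a lifting to `GL(n)` for every `n`-dimensional
representation of its `L`-group, then the same is true over `K'`: for every `π'` and `ρ'` there is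
an isobaric sum over `K'` which is unramified, with the right Satake parameters, at every place
`w` of `K'` such that the place `v` of `K` below `w` is unramified in `K'` and `π'` is unramified
at all places above `v`; and these are all but finitely many places. -/
theorem result (A A' : RamSide) (B : LSide A.toGLSide) (B' : LSide A'.toGLSide)
    (E : Ext A A' B B') (h : Functoriality B) :
    ∀ (π' : B'.Rep) (ι : Type) [Fintype ι] [DecidableEq ι], ∀ ρ' ∈ B'.alg π' ι,
      (E.Good π')ᶜ.Finite ∧ HasLiftOff B' (E.Good π')ᶜ π' ρ' := by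
  classical
  intro π' ι _ _ ρ' hρ'
  have hinf := A'.inf
  have hbelow : ∀ (w : A'.Place) (δ : E.Δ), E.below (δ • w) = E.below w := fun w δ =>
    ((E.orbit w (δ • w)).2 ⟨δ, rfl⟩).symm
  have hfin : (E.Good π')ᶜ.Finite := by
    have h1 : (E.below ⁻¹' E.Ram).Finite := by
      apply Set.Finite.preimage' E.ram_finite
      intro v _
      by_cases hne : (E.below ⁻¹' {v}).Nonempty
      · obtain ⟨w, hw⟩ := hne
        apply (Set.finite_range fun δ : E.Δ => δ • w).subset
        intro w' hw'
        obtain ⟨δ, hδ⟩ := (E.orbit w w').1 (by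
          rw [Set.mem_preimage, Set.mem_singleton_iff] at hw hw'
          rw [hw, hw'])
        exact ⟨δ, hδ.symm⟩
      · rw [Set.not_nonempty_iff_eq_empty.1 hne]
        exact Set.finite_empty
    refine (h1.union (Set.finite_iUnion fun δ : E.Δ =>
      smul_cofinite E.toGalSide δ _ (B'.U_cofinite π'))).subset ?_
    intro w hw
    by_cases h2 : E.below w ∈ E.Ram
    · exact Or.inl h2
    · right
      by_contra hn
      apply hw
      refine ⟨h2, fun δ => ?_⟩
      by_contra h3
      exact hn (Set.mem_iUnion.2 ⟨δ, h3⟩)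
  have hst : ∀ w ∈ E.Good π', ∀ δ : E.Δ, δ • w ∈ E.Good π' := by
    intro w hw δ
    refine ⟨by rw [hbelow]; exact hw.1, fun γ => ?_⟩
    rw [← mul_smul]
    exact hw.2 _
  have hcard : ∀ w, ((ρ' (B'.c π' w)).charpoly.roots).card = Fintype.card ι := fun w =>
    card_roots_charpoly _
  obtain ⟨P, hP⟩ := exists_lift E.toGalSide hfin hst
    (fun w => (ρ' (B'.c π' w)).charpoly.roots) (Fintype.card ι) (fun w _ => (hcard w).le) (by
      intro χ
      obtain ⟨π, κ, _, _, ρ, hρ, hres⟩ := E.restriction π' χ ι ρ' hρ'
      obtain ⟨P, -, hP⟩ := h π κ ρ hρ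
      obtain ⟨Q, hQ⟩ := E.baseChange P
      refine ⟨Q, fun w hw => ?_⟩
      obtain ⟨h1, h2⟩ := hres w hw.1.1 fun δ => ⟨hw.1.2 δ, hw.2 δ⟩
      obtain ⟨h3, h4⟩ := hP _ h1
      obtain ⟨h5, h6⟩ := hQ w hw.1.1 h3
      refine ⟨h5, ?_⟩
      rw [h6, ← h2, ← h4]
      rfl)
  refine ⟨hfin, P, ?_, ?_⟩
  · obtain ⟨w, hw⟩ : (E.Good π').Nonempty := by
      by_contra hne
      rw [Set.not_nonempty_iff_eq_empty] at hne
      rw [hne, Set.compl_empty] at hfin
      exact Set.infinite_univ hfin
    rw [← card_params P w (hP w hw).1, (hP w hw).2, hcard w]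
  · intro w _ hw
    exact hP w (by simpa using hw)

end Pool.Agent.H23.Kept.SolvableExtensions
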